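import Mathlib

namespace Pool.Agent.MP_be203f_lc.R

open Cardinal Set

universe u

/-- Every open cover has a subcover of cardinality below `k`. -/
def KCompact (k : Cardinal.{u}) (X : Type u) [TopologicalSpace X] : Prop :=
  ∀ C : Set (Set X), (∀ U ∈ C, IsOpen U) → ⋃₀ C = Set.univ → ∃ D ⊆ C, #D < k ∧ ⋃₀ D = Set.univ

/-- `k` is `l`-square compact. -/
def SqCompact (k l : Cardinal.{u}) : Prop :=
  ∀ (X : Type u) [TopologicalSpace X],
    (∃ B : Set (Set X), TopologicalSpace.IsTopologicalBasis B ∧ #B ≤ l) →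
      KCompact k X → KCompact k (X × X)

/-- Every cover of `2 ^ l` by boxes that fix fewer than `k` coordinates has a subcover of
cardinality below `k`. -/
def BoxCompact (k l : Cardinal.{u}) : Prop :=
  ∀ C : Set (Set l.out × (l.out → Bool)), (∀ c ∈ C, #c.1 < k) →
    (∀ w : l.out → Bool, ∃ c ∈ C, ∀ i ∈ c.1, w i = c.2 i) →
      ∃ D ⊆ C, #D < k ∧ ∀ w : l.out → Bool, ∃ c ∈ D, ∀ i ∈ c.1, w i = c.2 i

/-- Ostaszewski's club principle on `S`. -/
def Clubsuit {L : Type u} [LinearOrder L] (S : Set L) : Prop :=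
  ∃ c : L → Set L, (∀ x ∈ S, c x ⊆ Iio x ∧ ∀ y < x, ∃ z ∈ c x, y < z) ∧
    ∀ A : Set L, IsCofinal A → IsStationary {x ∈ S | c x ⊆ A}

end Pool.Agent.MP_be203f_lc.R
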