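import Pool.Agent.MP_be203f_lc.R.Defs

namespace Pool.Agent.MP_be203f_lc.R

open Cardinal Set

universe u

variable {κ μ : Cardinal.{u}}

/-- Compactness for sets that are closed in the box topology. -/
theorem sat (hb : BoxCompact κ μ) {ι J : Type u} (hι : #ι ≤ μ) (A : J → Set (ι → Bool))
    (hA : ∀ j w, w ∉ A j → ∃ a : Set ι, #a < κ ∧ ∀ w', (∀ i ∈ a, w' i = w i) → w' ∉ A j)
    (hfin : ∀ D : Set J, #D < κ → ∃ w, ∀ j ∈ D, w ∈ A j) : ∃ w, ∀ j, w ∈ A j := by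
  classical
  by_contra hne
  push Not at hne
  obtain ⟨e⟩ : Nonempty (ι ↪ μ.out) := by
    rw [← Cardinal.le_def, mk_out]; exact hι
  choose j hj using hne
  choose a ha using fun w => hA (j w) w (hj w)
  let f : (μ.out → Bool) → Set μ.out × (μ.out → Bool) := fun w => (e '' a (w ∘ e), w)
  obtain ⟨D, hD, hs, hc⟩ := hb (range f) (by
    rintro _ ⟨w, rfl⟩
    exact mk_image_le.trans_lt (ha _).1) (fun w => ⟨f w, ⟨w, rfl⟩, fun _ _ => rfl⟩)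
  obtain ⟨w, hw⟩ := hfin ((fun c : Set μ.out × (μ.out → Bool) => j (c.2 ∘ e)) '' D)
    (mk_image_le.trans_lt hs)
  obtain ⟨c, hcD, hc⟩ := hc (Function.extend e w fun _ => false)
  obtain ⟨v, rfl⟩ := hD hcD
  refine (ha (v ∘ e)).2 w (fun i hi => ?_) (hw _ ⟨_, hcD, rfl⟩)
  have := hc (e i) ⟨i, hi, rfl⟩
  rwa [e.injective.extend_apply] at this

theorem sq_of_box (hκ : ℵ₀ ≤ κ) (hμ : ℵ₀ ≤ μ) (hb : BoxCompact κ μ) : SqCompact κ μ := by
  classical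
  rintro X _ ⟨B, hB, hBμ⟩ hX C hC hcov
  by_contra hne
  let A : ({p : B × B // ∃ W ∈ C, p.1.1 ×ˢ p.2.1 ⊆ W} ⊕
      (ULift.{u} Bool × {V : Set B // #V < κ ∧ ∀ x, ∃ U ∈ V, x ∈ U.1})) →
      Set (ULift.{u} Bool × B → Bool) :=
    Sum.elim (fun p => {w | ¬ (w (⟨false⟩, p.1.1) = true ∧ w (⟨true⟩, p.1.2) = true)})
      fun q => {w | ∃ U ∈ q.2.1, w (q.1, U) = true}
  obtain ⟨w, hw⟩ := sat hb (ι := ULift.{u} Bool × B) (by
      simp only [mk_prod, mk_uLift, mk_fintype, Fintype.card_bool, Nat.cast_ofNat, lift_ofNat,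
        lift_id]
      exact (mul_le_mul' ((nat_lt_aleph0 2).le.trans hμ) hBμ).trans (mul_eq_self hμ).le) A
    (by
      rintro (p | q) w hw
      · refine ⟨{(⟨false⟩, p.1.1), (⟨true⟩, p.1.2)}, (toFinite _).lt_aleph0.trans_le hκ,
          fun w' h h' => h' ?_⟩
        rw [h _ (by simp), h _ (by simp)]
        exact not_not.1 hw
      · refine ⟨(fun U => (q.1, U)) '' q.2.1, mk_image_le.trans_lt q.2.2.1, ?_⟩
        rintro w' h ⟨U, hU, h'⟩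
        exact hw ⟨U, hU, h _ ⟨U, hU, rfl⟩ ▸ h'⟩)
    (by
      intro D hD
      have : ∀ p : {p : B × B // ∃ W ∈ C, p.1.1 ×ˢ p.2.1 ⊆ W}, ∃ W ∈ C,
        p.1.1.1 ×ˢ p.1.2.1 ⊆ W := fun p => p.2
      choose W hW using this
      have h1 : ⋃₀ (W '' (Sum.inl ⁻¹' D)) ≠ Set.univ := fun h => hne ⟨_, by
        rintro _ ⟨p, -, rfl⟩
        exact (hW p).1, mk_image_le.trans_lt
          ((mk_preimage_of_injective _ _ Sum.inl_injective).trans_lt hD), h⟩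
      obtain ⟨⟨x, y⟩, hxy⟩ := (ne_univ_iff_exists_notMem _).1 h1
      refine ⟨fun i => decide ((if i.1.down then y else x) ∈ i.2.1), ?_⟩
      rintro (p | q) hj
      · intro h
        simp only [Bool.false_eq_true, if_false, if_true, decide_eq_true_eq] at h
        exact hxy ⟨W p, ⟨p, hj, rfl⟩, (hW p).2 ⟨h.1, h.2⟩⟩
      · obtain ⟨U, hU, h⟩ := q.2.2.2 (if q.1.down then y else x)
        exact ⟨U, hU, by simpa using h⟩)
  have key : ∀ i : ULift.{u} Bool, ∃ x, ∀ U : B, x ∈ U.1 → w (i, U) = true := by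
    intro i
    by_contra h
    push Not at h
    obtain ⟨D, hD, hs, hc⟩ := hX (Subtype.val '' {U : B | w (i, U) ≠ true})
      (by rintro _ ⟨U, -, rfl⟩; exact hB.isOpen U.2)
      (eq_univ_of_forall fun x => by
        obtain ⟨U, h1, h2⟩ := h x
        exact ⟨U.1, ⟨U, h2, rfl⟩, h1⟩)
    obtain ⟨U, hU, h'⟩ := hw (Sum.inr (i, ⟨Subtype.val ⁻¹' D,
      (mk_preimage_of_injective _ _ Subtype.val_injective).trans_lt hs, fun x => by
        obtain ⟨U, h1, h2⟩ : x ∈ ⋃₀ D := hc ▸ mem_univ x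
        obtain ⟨U', -, rfl⟩ := hD h1
        exact ⟨U', h1, h2⟩⟩))
    obtain ⟨U', h1, h2⟩ := hD hU
    exact h1 (Subtype.val_injective h2 ▸ h')
  obtain ⟨x, hx⟩ := key ⟨false⟩
  obtain ⟨y, hy⟩ := key ⟨true⟩
  obtain ⟨W, hW, hxy⟩ : (x, y) ∈ ⋃₀ C := hcov ▸ mem_univ _
  obtain ⟨U, V, hU, hV, hxU, hyV, hUV⟩ := isOpen_prod_iff.1 (hC W hW) x y hxy
  obtain ⟨U', h1, h2, h3⟩ := hB.exists_subset_of_mem_open hxU hU
  obtain ⟨V', h4, h5, h6⟩ := hB.exists_subset_of_mem_open hyV hV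
  exact hw (Sum.inl ⟨(⟨U', h1⟩, ⟨V', h4⟩), W, hW, (prod_mono h3 h6).trans hUV⟩)
    ⟨hx ⟨U', h1⟩ h2, hy ⟨V', h4⟩ h5⟩

end Pool.Agent.MP_be203f_lc.R
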